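import Pool.Agent.Lib.MP_f0744f_nt.C.Main
import Pool.Agent.Lib.MP_f0744f_nt.C.Red3

open Polynomial

namespace Pool.Agent.Results.MP_f0744f_nt.CoprimeDegrees

/-- `f` compresses `S`: for some `x₀ ∈ S` the points `x₀, f(x₀), …, f^{N-1}(x₀)`, where `N = |S|`,
are exactly the elements of `S` (in some order). -/
def Compresses (f : ℝ[X]) (S : Finset ℚ) : Prop :=
  ∃ x₀ ∈ S, (Finset.range S.card).image (fun i => (fun y : ℝ => f.eval y)^[i] (x₀ : ℝ)) =
    S.image (fun q : ℚ => (q : ℝ))

/-- For every `K` there is an `M` such that no set of at least `M` rationals is compressed by two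
polynomials of coprime degrees between `2` and `K`. -/
theorem result : ∀ K : ℕ, ∃ M : ℕ, ∀ S : Finset ℚ, M ≤ S.card → ∀ f g : ℝ[X],
    2 ≤ f.natDegree → f.natDegree ≤ K → 2 ≤ g.natDegree → g.natDegree ≤ K →
      Nat.Coprime f.natDegree g.natDegree → ¬ (Compresses f S ∧ Compresses g S) := by
  intro K
  have h : ∀ d e : ℕ, ∃ M : ℕ, 2 ≤ d → 2 ≤ e → Nat.Coprime d e → ∀ S : Finset ℚ, M ≤ S.card →
      ∀ f g : ℝ[X], f.natDegree = d → g.natDegree = e →
        ¬ (F0744C.Compresses f S ∧ F0744C.Compresses g S) := by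
    intro d e
    by_cases hd : 2 ≤ d
    · by_cases he : 2 ≤ e
      · by_cases hc : Nat.Coprime d e
        · obtain ⟨M, hM⟩ := F0744C.red_main hd he hc (F0744C.main_int hd he hc)
          exact ⟨M, fun _ _ _ => hM⟩
        · exact ⟨0, fun _ _ h => absurd h hc⟩
      · exact ⟨0, fun _ h => absurd h he⟩
    · exact ⟨0, fun h => absurd h hd⟩
  choose M hM using h
  refine ⟨∑ d ∈ Finset.range (K + 1), ∑ e ∈ Finset.range (K + 1), M d e, ?_⟩
  intro S hS f g hf hfK hg hgK hc hcomp
  refine hM f.natDegree g.natDegree hf hg hc S (le_trans ?_ hS) f g rfl rfl hcomp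
  refine le_trans ?_ (Finset.single_le_sum (f := fun d => ∑ e ∈ Finset.range (K + 1), M d e)
    (fun i _ => Nat.zero_le _) (Finset.mem_range.2 (Nat.lt_succ_of_le hfK)))
  exact Finset.single_le_sum (f := fun e => M f.natDegree e)
    (fun i _ => Nat.zero_le _) (Finset.mem_range.2 (Nat.lt_succ_of_le hgK))

end Pool.Agent.Results.MP_f0744f_nt.CoprimeDegrees
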