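import Pool.Agent.Lib.MP_f0744f_nt.C.Red3
import Pool.Agent.Lib.MP_f0744f_nt.C.Main
import Pool.Agent.Lib.MP_f0744f_nt.D.Z2
import Pool.Agent.Lib.MP_f0744f_nt.D.Z5
import Pool.Agent.Lib.MP_f0744f_nt.E.Z2
import Pool.Agent.Lib.MP_f0744f_nt.E.Z4

/-! # MP_f0744f_nt: the case K = 3 -/

set_option autoImplicit false

open Polynomial

namespace Pool.Agent.Results.MP_f0744f_nt.DegreeThree

/-- `f` compresses `S`: for some `x₀ ∈ S` the points `x₀, f(x₀), …, f^{N-1}(x₀)`, `N = |S|`, are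
exactly the elements of `S`. -/
def Compresses (f : ℝ[X]) (S : Finset ℚ) : Prop :=
  ∃ x₀ ∈ S, (Finset.range S.card).image (fun i => (fun y : ℝ => f.eval y)^[i] (x₀ : ℝ)) =
    S.image (fun q : ℚ => (q : ℝ))

/-- `Z` is a cycle of `f`: for some `z ∈ Z` the points `z, f(z), …, f^{c-1}(z)`, `c = |Z|`, are
exactly the elements of `Z`, and `f^c(z) = z`. -/
def IsCycle (f : ℝ[X]) (Z : Finset ℚ) : Prop :=
  ∃ z ∈ Z, (Finset.range Z.card).image (fun i => (fun y : ℝ => f.eval y)^[i] (z : ℝ)) =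
    Z.image (fun q : ℚ => (q : ℝ)) ∧ (fun y : ℝ => f.eval y)^[Z.card] (z : ℝ) = (z : ℝ)

/-- the compressing polynomials agree up to a reflection -/
theorem main1 : ∃ M : ℕ, ∀ S : Finset ℚ, M ≤ S.card → ∀ f g : ℝ[X], 2 ≤ f.natDegree →
    f.natDegree ≤ 3 → 2 ≤ g.natDegree → g.natDegree ≤ 3 → Compresses f S → Compresses g S →
      F0744E.SymR f g := by
  obtain ⟨M1, h1⟩ := F0744D.red_main' le_rfl (F0744D.main_q 2 le_rfl)
  obtain ⟨M2, h2⟩ := F0744C.red_main (d := 2) (e := 3) le_rfl (by norm_num) (by decide)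
    (F0744C.main_int le_rfl (by norm_num) (by decide))
  obtain ⟨M3, h3⟩ := F0744E.red_main3 F0744E.main3
  refine ⟨M1 + M2 + M3, ?_⟩
  intro S hS f g hf2 hf3 hg2 hg3 hcf hcg
  have hf : f.natDegree = 2 ∨ f.natDegree = 3 := by omega
  have hg : g.natDegree = 2 ∨ g.natDegree = 3 := by omega
  rcases hf with hf | hf <;> rcases hg with hg | hg
  · obtain ⟨k, hk, hgk⟩ := h1 S (by omega) f g hf hg hcf hcg
    left
    have h4 : g.natDegree = 2 ^ k := by
      rw [hgk, Polynomial.natDegree_iterate_comp, hf, Polynomial.natDegree_X, mul_one]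
    have h5 : k = 1 := by
      rw [hg] at h4
      have : (2 : ℕ) ^ 1 = 2 ^ k := by rw [pow_one]; exact h4
      exact (Nat.pow_right_injective le_rfl this).symm
    rw [hgk, h5, Function.iterate_one, Polynomial.comp_X]
  · exact absurd ⟨hcf, hcg⟩ (h2 S (by omega) f g hf hg)
  · exact absurd ⟨hcg, hcf⟩ (h2 S (by omega) g f hg hf)
  · exact h3 S (by omega) f g hf hg hcf hcg

/-- Let `f`, `g` have degree 2 or 3 and let `f` compress `S`, `|S| ≥ M`. Then `g` compresses `S` if and only if `g = f`, or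
`g = c - f` where `f (c - x) = c - f (x)` and `f` has a rational cycle `Z`, stable under `x ↦ c - x`, of length divisible by 4, which
contains all points of `S` except at most one and has at most one point outside `S`. -/
theorem result : ∃ M : ℕ, ∀ S : Finset ℚ, M ≤ S.card → ∀ f g : ℝ[X], 2 ≤ f.natDegree →
    f.natDegree ≤ 3 → 2 ≤ g.natDegree → g.natDegree ≤ 3 → Compresses f S →
      (Compresses g S ↔ g = f ∨ ∃ (c : ℚ) (Z : Finset ℚ), g = C (c : ℝ) - f ∧
        f.comp (C (c : ℝ) - X) = C (c : ℝ) - f ∧ IsCycle f Z ∧ (∀ z ∈ Z, c - z ∈ Z) ∧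
        4 ∣ Z.card ∧ (Z \ S).card ≤ 1 ∧ (S \ Z).card ≤ 1) := by
  obtain ⟨M, hM⟩ := main1
  refine ⟨M + 10, ?_⟩
  intro S hS f g hf2 hf3 hg2 hg3 hcf
  obtain ⟨F, hFf, hF⟩ := F0744D.compr_rat (rfl : f.natDegree = f.natDegree) (by omega) hcf
  have hcmp : ∀ G : ℚ[X], F0744C.Compresses (G.map (algebraMap ℚ ℝ)) S ↔
      F0744D.Cmp (fun t : ℚ => G.eval t) S := by
    intro G
    have h1 := F0744D.compr_iff G 1 S
    rw [Function.iterate_one, Function.iterate_one, Polynomial.comp_X] at h1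
    exact h1
  have hcf' : F0744D.Cmp (fun t : ℚ => F.eval t) S := by
    refine (hcmp F).1 ?_
    rw [hFf]
    exact hcf
  have hG : ∀ c : ℚ, (C c - F).map (algebraMap ℚ ℝ) = C (c : ℝ) - f := by
    intro c
    rw [Polynomial.map_sub, Polynomial.map_C, hFf]
    rfl
  have hGe : ∀ c : ℚ, (fun t : ℚ => (C c - F).eval t) = fun t : ℚ => c - F.eval t := by
    intro c
    funext t
    rw [Polynomial.eval_sub, Polynomial.eval_C]
  have hsym : ∀ c : ℚ, f.comp (C (c : ℝ) - X) = C (c : ℝ) - f →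
      ∀ x : ℚ, F.eval (c - x) = c - F.eval x := by
    intro c h x
    have h1 : (F.comp (C c - X)).map (algebraMap ℚ ℝ) = (C c - F).map (algebraMap ℚ ℝ) := by
      rw [Polynomial.map_comp, Polynomial.map_sub, Polynomial.map_C, Polynomial.map_X, hFf, hG]
      exact h
    have h2 := Polynomial.map_injective _ (algebraMap ℚ ℝ).injective h1
    have h3 := congrArg (Polynomial.eval x) h2
    rw [Polynomial.eval_comp, Polynomial.eval_sub, Polynomial.eval_C, Polynomial.eval_X,
      Polynomial.eval_sub, Polynomial.eval_C] at h3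
    exact h3
  constructor
  · intro hcg
    rcases hM S (by omega) f g hf2 hf3 hg2 hg3 hcf hcg with h | ⟨c, h1, h2⟩
    · exact Or.inl h
    · right
      have hcg' : F0744D.Cmp (fun t : ℚ => c - F.eval t) S := by
        rw [← hGe c]
        refine (hcmp _).1 ?_
        rw [hG, ← h1]
        exact hcg
      obtain ⟨Z, h3, h4, h5, h6, h7⟩ := F0744E.refl_fwd (φ := fun t : ℚ => F.eval t)
        (hsym c h2) (by omega) hcf' hcg'
      refine ⟨c, Z, h1, h2, ?_, h4, h5, h6, h7⟩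
      rw [← hFf]
      exact (F0744D.cycle_iff F Z).2 h3
  · rintro (h | ⟨c, Z, h1, h2, h3, h4, h5, h6, h7⟩)
    · rw [h]
      exact hcf
    · rw [← hFf] at h3
      have h3' := (F0744D.cycle_iff F Z).1 h3
      have h8 := F0744E.refl_conv (φ := fun t : ℚ => F.eval t) (hsym c h2) (by omega) hcf' h3'
        h4 h5 h6 h7
      rw [h1, ← hG c]
      refine (hcmp _).2 ?_
      rw [hGe c]
      exact h8

end Pool.Agent.Results.MP_f0744f_nt.DegreeThree
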