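import Pool.Agent.Lib.MP_f0744f_nt.D.Z2
import Pool.Agent.Lib.MP_f0744f_nt.D.Z4
import Pool.Agent.Lib.MP_f0744f_nt.D.Z5
import Pool.Agent.Lib.MP_f0744f_nt.D.Z6
import Pool.Agent.Lib.MP_f0744f_nt.U.Z3

/-! # MP_f0744f_nt: sets compressed by a unicritical polynomial -/

set_option autoImplicit false

open Polynomial

namespace Pool.Agent.Results.MP_f0744f_nt.UnicriticalIterates

/-- `f` compresses `S`: for some `x₀ ∈ S` the points `x₀, f(x₀), …, f^{N-1}(x₀)`, `N = |S|`, are
exactly the elements of `S`. -/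
def Compresses (f : ℝ[X]) (S : Finset ℚ) : Prop :=
  ∃ x₀ ∈ S, (Finset.range S.card).image (fun i => (fun y : ℝ => f.eval y)^[i] (x₀ : ℝ)) =
    S.image (fun q : ℚ => (q : ℝ))

/-- `Z` is a cycle of `f`: for some `z ∈ Z` the points `z, f(z), …, f^{c-1}(z)`, `c = |Z|`, are
exactly the elements of `Z`, and `f^c(z) = z`. -/
def IsCycle (f : ℝ[X]) (Z : Finset ℚ) : Prop :=
  ∃ z ∈ Z, (Finset.range Z.card).image (fun i => (fun y : ℝ => f.eval y)^[i] (z : ℝ)) =
    Z.image (fun q : ℚ => (q : ℝ)) ∧ (fun y : ℝ => f.eval y)^[Z.card] (z : ℝ) = (z : ℝ)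

theorem main1 (K : ℕ) : ∃ M : ℕ, ∀ S : Finset ℚ, M ≤ S.card → ∀ (f g : ℝ[X]) (d : ℕ),
    2 ≤ d → d ≤ K → F0744U.UniR f d → 2 ≤ g.natDegree → g.natDegree ≤ K → Compresses f S →
      Compresses g S → ∃ k : ℕ, 1 ≤ k ∧ g = f.comp^[k] X := by
  have h : ∀ d e : ℕ, ∃ M : ℕ, 2 ≤ d → 2 ≤ e → ∀ S : Finset ℚ, M ≤ S.card → ∀ f g : ℝ[X],
      F0744U.UniR f d → g.natDegree = e → F0744C.Compresses f S → F0744C.Compresses g S →
        ∃ k : ℕ, 1 ≤ k ∧ g = f.comp^[k] X := by
    intro d e
    by_cases he : 2 ≤ e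
    · rcases Nat.lt_trichotomy d 2 with hd | hd | hd
      · exact ⟨0, fun h => absurd h (by omega)⟩
      · subst hd
        obtain ⟨M, hM⟩ := F0744D.red_main' he (F0744D.main_q e he)
        exact ⟨M, fun _ _ S hS f g hf => hM S hS f g (hf.natDegree (by norm_num))⟩
      · obtain ⟨M, hM⟩ := F0744U.red_mainU (d := d) (by omega) he (F0744U.main_U (by omega) he)
        exact ⟨M, fun _ _ => hM⟩
    · exact ⟨0, fun _ h => absurd h he⟩
  choose M hM using h
  refine ⟨∑ d ∈ Finset.range (K + 1), ∑ e ∈ Finset.range (K + 1), M d e, ?_⟩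
  intro S hS f g d hd hdK hf hg hgK hcf hcg
  refine hM d g.natDegree hd hg S (le_trans ?_ hS) f g hf rfl hcf hcg
  have h1 : M d g.natDegree ≤ ∑ e ∈ Finset.range (K + 1), M d e :=
    Finset.single_le_sum (f := fun e => M d e) (fun i _ => Nat.zero_le _)
      (Finset.mem_range.2 (Nat.lt_succ_of_le hgK))
  have h2 : ∑ e ∈ Finset.range (K + 1), M d e ≤
      ∑ d ∈ Finset.range (K + 1), ∑ e ∈ Finset.range (K + 1), M d e :=
    Finset.single_le_sum (f := fun d => ∑ e ∈ Finset.range (K + 1), M d e)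
      (fun i _ => Nat.zero_le _) (Finset.mem_range.2 (Nat.lt_succ_of_le hdK))
  exact h1.trans h2

/-- A strictly monotone or strictly antitone map has no cycle with more than two points. -/
theorem iterate_two {φ : ℝ → ℝ} (h : StrictMono φ ∨ StrictAnti φ) {n : ℕ} (hn : 0 < n) {z : ℝ}
    (hz : φ^[n] z = z) : φ^[2] z = z := by
  have hm : StrictMono φ^[2] := by
    rcases h with h | h
    · exact h.iterate 2
    · exact h.comp h
  have hz2 : (φ^[2])^[n] z = z := by
    rw [← Function.iterate_mul, Nat.mul_comm, Function.iterate_mul]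
    exact Function.iterate_fixed hz 2
  rcases lt_trichotomy z (φ^[2] z) with h1 | h1 | h1
  · have h2 := hm.strictMono_iterate_of_lt_map h1 hn
    simp only [Function.iterate_zero, id_eq] at h2
    rw [hz2] at h2
    exact absurd h2 (lt_irrefl _)
  · exact h1.symm
  · have h2 := hm.strictAnti_iterate_of_map_lt h1 hn
    simp only [Function.iterate_zero, id_eq] at h2
    rw [hz2] at h2
    exact absurd h2 (lt_irrefl _)

/-- `α (x - γ)^d + β` with `d` odd is strictly monotone or strictly antitone. -/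
theorem mono_of_odd {f : ℝ[X]} {d : ℕ} {α γ β : ℝ} (hd : Odd d) (hα : α ≠ 0)
    (hf : f = C α * (X - C γ) ^ d + C β) :
    StrictMono (fun y : ℝ => f.eval y) ∨ StrictAnti (fun y : ℝ => f.eval y) := by
  have he : ∀ y : ℝ, f.eval y = α * (y - γ) ^ d + β := by
    intro y
    rw [hf]
    simp
  rcases lt_or_gt_of_ne hα with h | h
  · right
    intro x y hxy
    have h1 : (x - γ) ^ d < (y - γ) ^ d := hd.strictMono_pow (sub_lt_sub_right hxy γ)
    have h2 := mul_lt_mul_of_neg_left h1 h
    simp only [he]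
    linarith
  · left
    intro x y hxy
    have h1 : (x - γ) ^ d < (y - γ) ^ d := hd.strictMono_pow (sub_lt_sub_right hxy γ)
    have h2 := mul_lt_mul_of_pos_left h1 h
    simp only [he]
    linarith

/-- For odd `d` every cycle of `f` has at most two points. -/
theorem card_cycle_le {f : ℝ[X]} {d : ℕ} {α γ β : ℝ} (hd : Odd d) (hα : α ≠ 0)
    (hf : f = C α * (X - C γ) ^ d + C β) {Z : Finset ℚ} (hZ : IsCycle f Z) : Z.card ≤ 2 := by
  obtain ⟨z, hz, him, hfix⟩ := hZ
  have h2 : (fun y : ℝ => f.eval y)^[2] (z : ℝ) = z :=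
    iterate_two (mono_of_odd hd hα hf) (Finset.card_pos.2 ⟨z, hz⟩) hfix
  have hsub : (Finset.range Z.card).image (fun i => (fun y : ℝ => f.eval y)^[i] (z : ℝ)) ⊆
      {(z : ℝ), f.eval (z : ℝ)} := by
    intro y hy
    obtain ⟨i, -, rfl⟩ := Finset.mem_image.1 hy
    rw [Finset.mem_insert, Finset.mem_singleton]
    have h3 : ∀ j : ℕ, (fun y : ℝ => f.eval y)^[2 * j] (z : ℝ) = z := by
      intro j
      rw [Function.iterate_mul]
      exact Function.iterate_fixed h2 j
    rcases Nat.even_or_odd' i with ⟨j, rfl | rfl⟩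
    · exact Or.inl (h3 j)
    · right
      show (fun y : ℝ => f.eval y)^[2 * j + 1] (z : ℝ) = _
      rw [Function.iterate_succ_apply', h3 j]
  have hc := Finset.card_le_card hsub
  rw [him, Finset.card_image_of_injective _ Rat.cast_injective] at hc
  exact hc.trans Finset.card_le_two

/-- Let `f = α (x - γ)^d + β`, `2 ≤ d ≤ K`, `α ≠ 0`, compress `S`, `|S| ≥ M(K)`. A polynomial `g` of a degree from `2` to `K`
compresses `S` if and only if `g = f`, or `d` is even and `g` is the iterate `f^k` of `f` for a `k ≥ 2` prime to the length of a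
rational cycle `Z` of `f` which contains all points of `S` except at most one and has at most one point outside `S`. In
particular, `f` is the only one if `d` is odd. -/
theorem result : ∀ K : ℕ, ∃ M : ℕ, ∀ S : Finset ℚ, M ≤ S.card → ∀ (f g : ℝ[X]) (d : ℕ)
    (α γ β : ℝ), 2 ≤ d → d ≤ K → α ≠ 0 → f = C α * (X - C γ) ^ d + C β → Compresses f S →
    2 ≤ g.natDegree → g.natDegree ≤ K →
      (Compresses g S ↔ g = f ∨ Even d ∧ ∃ (k : ℕ) (Z : Finset ℚ), 2 ≤ k ∧ g = f.comp^[k] X ∧
        IsCycle f Z ∧ (Z \ S).card ≤ 1 ∧ (S \ Z).card ≤ 1 ∧ Nat.Coprime k Z.card) := by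
  intro K
  obtain ⟨M, hM⟩ := main1 K
  refine ⟨M + K + 4, ?_⟩
  intro S hS f g d α γ β hd hdK hα hfu hcf hg hgK
  have hu : F0744U.UniR f d := ⟨α, γ, β, hα, hfu⟩
  have hf : f.natDegree = d := hu.natDegree (by omega)
  obtain ⟨F, hFf, hF⟩ := F0744D.compr_rat hf (by omega) hcf
  have hcf' : F0744D.Cmp (fun t : ℚ => F.eval t) S := by
    have h1 := (F0744D.compr_iff F 1 S).1
    rw [Function.iterate_one, Function.iterate_one, Polynomial.comp_X, hFf] at h1
    exact h1 hcf
  constructor
  · intro hcg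
    obtain ⟨k, hk, hgk⟩ := hM S (by omega) f g d hd hdK hu hg hgK hcf hcg
    by_cases hne : g = f
    · exact Or.inl hne
    · have hk2 : 2 ≤ k := by
        rcases Nat.lt_or_ge k 2 with h | h
        · exfalso
          have hk1 : k = 1 := by omega
          subst hk1
          apply hne
          rw [hgk, Function.iterate_one, Polynomial.comp_X]
        · exact h
      have hdeg : d ^ k ≤ K := by
        have h2 : (f.comp^[k] X).natDegree = d ^ k := by
          rw [Polynomial.natDegree_iterate_comp, hf, Polynomial.natDegree_X, mul_one]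
        rw [← h2, ← hgk]
        exact hgK
      have hkK : k < d ^ k := Nat.lt_pow_self (by omega)
      have hcg' : F0744D.Cmp (fun t : ℚ => F.eval t)^[k] S := by
        rw [hgk, ← hFf] at hcg
        exact (F0744D.compr_iff F k S).1 hcg
      obtain ⟨Z, h1, h2, h3, h4⟩ := F0744D.cycle hk2 (by omega) hcf' hcg'
      have hZ : IsCycle f Z := by
        rw [← hFf]
        exact (F0744D.cycle_iff F Z).2 h1
      have hev : Even d := by
        rw [← Nat.not_odd_iff_even]
        intro hodd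
        have h5 := card_cycle_le hodd hα hfu hZ
        have h6 := Finset.card_le_card_sdiff_add_card (s := S) (t := Z)
        omega
      exact Or.inr ⟨hev, k, Z, hk2, hgk, hZ, h2, h3, h4⟩
  · rintro (h | ⟨-, k, Z, hk, hgk, hZ, h2, h3, h4⟩)
    · rw [h]
      exact hcf
    · rw [← hFf] at hZ
      have hZ' := (F0744D.cycle_iff F Z).1 hZ
      have h5 := F0744D.cycle_conv (by omega) hcf' hZ' h2 h3 h4
      have h6 := (F0744D.compr_iff F k S).2 h5
      rw [hFf, ← hgk] at h6
      exact h6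

end Pool.Agent.Results.MP_f0744f_nt.UnicriticalIterates
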